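import Mathlib.MeasureTheory.Function.Jacobian

/-!
# Area formula with multiplicity

If `f` is differentiable on the measurable set `s`, the derivatives are invertible, and every point
has at most `N` preimages in `s`, then the integral of the Jacobian over `s` is at most `N` times
the measure of the image.
-/

set_option autoImplicit false

namespace Pool.KR

open MeasureTheory Set
open scoped NNReal ENNReal

variable {E : Type*} [NormedAddCommGroup E] [NormedSpace ℝ E] [FiniteDimensional ℝ E]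
  [MeasurableSpace E] [BorelSpace E]

/-- A measurable set with invertible derivatives is a countable disjoint union of measurable sets
of injectivity. -/
theorem exists_inj_partition {s : Set E} {f : E → E} {f' : E → E →L[ℝ] E}
    (hf' : ∀ x ∈ s, HasFDerivWithinAt f (f' x) s x) (hdet : ∀ x ∈ s, (f' x).det ≠ 0) :
    ∃ t : ℕ → Set E, Pairwise (Function.onFun Disjoint t) ∧ (∀ n, MeasurableSet (t n)) ∧
      s ⊆ ⋃ n, t n ∧ ∀ n, InjOn f (s ∩ t n) := by
  classical
  have hr : ∀ A : E →L[ℝ] E, ∃ r : ℝ≥0, r ≠ 0 ∧ (A.det ≠ 0 → ∀ t : Set E,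
      ApproximatesLinearOn f A t r → InjOn f t) := by
    intro A
    by_cases hA : A.det = 0
    · exact ⟨1, one_ne_zero, fun h => absurd hA h⟩
    · set B : E ≃L[ℝ] E := A.toContinuousLinearEquivOfDetNeZero hA with hB
      have hBA : (B : E →L[ℝ] E) = A := by
        ext x
        simp [hB]
      by_cases hs0 : Subsingleton E
      · refine ⟨1, one_ne_zero, fun _ t _ => ?_⟩
        intro x _ y _ _
        exact Subsingleton.elim x y
      · have hpos : (0 : ℝ≥0) < ‖(B.symm : E →L[ℝ] E)‖₊⁻¹ :=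
          (ContinuousLinearEquiv.subsingleton_or_nnnorm_symm_pos B).resolve_left hs0 |> fun h => by
            simpa using h
        refine ⟨‖(B.symm : E →L[ℝ] E)‖₊⁻¹ / 2, (half_pos hpos).ne', fun _ t ht => ?_⟩
        rw [← hBA] at ht
        exact ht.injOn (Or.inr (NNReal.half_lt_self hpos.ne'))
  choose r hr0 hr1 using hr
  obtain ⟨t, A, h1, h2, h3, h4, h5⟩ :=
    exists_partition_approximatesLinearOn_of_hasFDerivWithinAt f s f' hf' r hr0
  refine ⟨t, h1, h2, h3, fun n => ?_⟩
  rcases s.eq_empty_or_nonempty with he | hne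
  · rw [he, empty_inter]
    exact injOn_empty f
  · obtain ⟨y, hy, hAy⟩ := h5 hne n
    exact hr1 (A n) (by rw [hAy]; exact hdet y hy) _ (h4 n)

/-- **Area formula with multiplicity.** -/
theorem area_mult (μ : Measure E) [μ.IsAddHaarMeasure] {s : Set E} (hs : MeasurableSet s)
    {f : E → E} {f' : E → E →L[ℝ] E} (hf' : ∀ x ∈ s, HasFDerivWithinAt f (f' x) s x)
    (hdet : ∀ x ∈ s, (f' x).det ≠ 0) {N : ℕ} (hN : ∀ y, (s ∩ f ⁻¹' {y}).encard ≤ N) :
    ∫⁻ x in s, ENNReal.ofReal |(f' x).det| ∂μ ≤ N * μ (f '' s) := by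
  classical
  obtain ⟨t, h1, h2, h3, h4⟩ := exists_inj_partition hf' hdet
  have hst : s = ⋃ n, s ∩ t n := by
    rw [← inter_iUnion, inter_eq_left.2 h3]
  have hm : ∀ n, MeasurableSet (s ∩ t n) := fun n => hs.inter (h2 n)
  have hd : Pairwise (Function.onFun Disjoint fun n => s ∩ t n) := fun i j hij =>
    (h1 hij).mono inter_subset_right inter_subset_right
  have hf'' : ∀ n, ∀ x ∈ s ∩ t n, HasFDerivWithinAt f (f' x) (s ∩ t n) x := fun n x hx =>
    (hf' x hx.1).mono inter_subset_left
  have him : ∀ n, MeasurableSet (f '' (s ∩ t n)) := fun n =>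
    measurable_image_of_fderivWithin (hm n) (hf'' n) (h4 n)
  have himg : f '' s = ⋃ n, f '' (s ∩ t n) := by
    conv_lhs => rw [hst]
    rw [image_iUnion]
  have hms : MeasurableSet (f '' s) := by
    rw [himg]
    exact MeasurableSet.iUnion him
  have e1 : ∫⁻ x in s, ENNReal.ofReal |(f' x).det| ∂μ =
      ∑' n, μ (f '' (s ∩ t n)) := by
    conv_lhs => rw [hst]
    rw [lintegral_iUnion hm hd]
    refine tsum_congr fun n => ?_
    exact lintegral_abs_det_fderiv_eq_addHaar_image μ (hm n) (hf'' n) (h4 n)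
  have e2 : ∑' n, μ (f '' (s ∩ t n)) =
      ∫⁻ y, ∑' n, (f '' (s ∩ t n)).indicator (fun _ => (1 : ℝ≥0∞)) y ∂μ := by
    rw [lintegral_tsum fun n => (measurable_const.indicator (him n)).aemeasurable]
    refine tsum_congr fun n => ?_
    rw [lintegral_indicator (him n)]
    simp
  have e3 : ∀ y, ∑' n, (f '' (s ∩ t n)).indicator (fun _ => (1 : ℝ≥0∞)) y ≤
      (f '' s).indicator (fun _ => (N : ℝ≥0∞)) y := by
    intro y
    by_cases hy : y ∈ f '' s
    · rw [indicator_of_mem hy]
      refine ENNReal.tsum_le_of_sum_range_le fun k => ?_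
      set F := (Finset.range k).filter fun n => y ∈ f '' (s ∩ t n) with hF
      have hsum : ∑ n ∈ Finset.range k, (f '' (s ∩ t n)).indicator (fun _ => (1 : ℝ≥0∞)) y =
          (F.card : ℝ≥0∞) := by
        rw [hF, Finset.card_filter]
        push_cast
        refine Finset.sum_congr rfl fun n _ => ?_
        by_cases hn : y ∈ f '' (s ∩ t n)
        · rw [indicator_of_mem hn, if_pos hn]
        · rw [indicator_of_notMem hn, if_neg hn]
      rw [hsum]
      have hx : ∀ n : ℕ, ∃ x : E, n ∈ F → x ∈ s ∩ t n ∧ f x = y := by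
        intro n
        by_cases hn : n ∈ F
        · rw [hF, Finset.mem_filter] at hn
          obtain ⟨x, hx1, hx2⟩ := hn.2
          exact ⟨x, fun _ => ⟨hx1, hx2⟩⟩
        · exact ⟨y, fun h => absurd h hn⟩
      choose x hx using hx
      have hinj : Set.InjOn x (F : Set ℕ) := by
        intro i hi j hj hij
        by_contra hne
        have q1 := (hx i (Finset.mem_coe.1 hi)).1.2
        have q2 := (hx j (Finset.mem_coe.1 hj)).1.2
        rw [hij] at q1
        exact Set.disjoint_left.1 (h1 hne) q1 q2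
      have hsub : x '' (F : Set ℕ) ⊆ s ∩ f ⁻¹' {y} := by
        rintro _ ⟨i, hi, rfl⟩
        have q1 := hx i (Finset.mem_coe.1 hi)
        exact ⟨q1.1.1, q1.2⟩
      have hc : (F.card : ℕ∞) ≤ N := by
        calc (F.card : ℕ∞) = (F : Set ℕ).encard := (Set.encard_coe_eq_coe_finsetCard F).symm
          _ = (x '' (F : Set ℕ)).encard := (hinj.encard_image).symm
          _ ≤ (s ∩ f ⁻¹' {y}).encard := Set.encard_le_encard hsub
          _ ≤ N := hN y
      exact_mod_cast hc
    · rw [indicator_of_notMem hy]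
      refine le_of_eq ?_
      rw [ENNReal.tsum_eq_zero]
      intro n
      refine indicator_of_notMem ?_ _
      rintro ⟨x, hx, rfl⟩
      exact hy ⟨x, hx.1, rfl⟩
  rw [e1, e2]
  calc ∫⁻ y, ∑' n, (f '' (s ∩ t n)).indicator (fun _ => (1 : ℝ≥0∞)) y ∂μ
      ≤ ∫⁻ y, (f '' s).indicator (fun _ => (N : ℝ≥0∞)) y ∂μ := lintegral_mono e3
    _ = N * μ (f '' s) := by
      rw [lintegral_indicator hms]
      simp

end Pool.KR
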